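import Pool.Agent.U73.LC.Stm

set_option autoImplicit false

/-!
U689.LC (package REG of helper73's project): the pairs in the region `0 < ± (a³ - b²) ≤ T⁶`, `|a| ≤ M T²`.
-/

namespace Pool.Agent.U689.LC

open Finset Filter Topology
open Pool.Agent.U73.LR Pool.Agent.U73.LC

theorem ls_cont (s : Bool) : Continuous (Ls s) := by
  cases s
  · show Continuous (fun u : ℝ => 2 * (√(u ^ 3 + 1) - √(u ^ 3)))
    fun_prop
  · show Continuous (fun u : ℝ => 2 * (√(u ^ 3) - √(u ^ 3 - 1)))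
    fun_prop

theorem mem_box' (X : ℝ) (a b : ℤ) (ha : |(a : ℝ)| ≤ X ^ 2) (hb : |(b : ℝ)| ≤ X ^ 3) :
    (a, b) ∈ box X := by
  unfold Pool.Agent.U73.LR.box
  rw [Finset.mem_product, Finset.mem_Icc, Finset.mem_Icc]
  rw [abs_le] at ha hb
  refine ⟨⟨?_, Int.le_floor.2 ha.2⟩, ⟨?_, Int.le_floor.2 hb.2⟩⟩
  · have : -a ≤ ⌊X ^ 2⌋ := Int.le_floor.2 (by push_cast; linarith [ha.1])
    show -⌊X ^ 2⌋ ≤ a
    omega
  · have : -b ≤ ⌊X ^ 3⌋ := Int.le_floor.2 (by push_cast; linarith [hb.1])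
    show -⌊X ^ 3⌋ ≤ b
    omega

theorem abs_floor {Y : ℝ} {a : ℤ} : a ∈ Icc (-⌊Y⌋) ⌊Y⌋ ↔ |(a : ℝ)| ≤ Y := by
  rw [Finset.mem_Icc, abs_le]
  constructor
  · rintro ⟨h1, h2⟩
    have h3 : -a ≤ ⌊Y⌋ := by omega
    have h4 := Int.le_floor.1 h3
    have h5 := Int.le_floor.1 h2
    push_cast at h4
    constructor <;> linarith
  · rintro ⟨h1, h2⟩
    have h3 : -a ≤ ⌊Y⌋ := Int.le_floor.2 (by push_cast; linarith)
    have h4 : a ≤ ⌊Y⌋ := Int.le_floor.2 h2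
    constructor <;> omega

/-- the slice is in the box -/
theorem in_box {M T : ℝ} (hM : 1 ≤ M) (hT : 1 ≤ T) {a b : ℤ} (ha : |(a : ℝ)| ≤ M * T ^ 2)
    (hb : |(a : ℝ) ^ 3 - (b : ℝ) ^ 2| ≤ T ^ 6) : (a, b) ∈ box ((M + 1) * T) := by
  have hT0 : 0 < T := by linarith
  have hM0 : 0 < M := by linarith
  apply mem_box'
  · refine ha.trans ?_
    rw [mul_pow]
    have : M ≤ (M + 1) ^ 2 := by nlinarith
    exact mul_le_mul_of_nonneg_right this (by positivity)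
  · have h1 : |(a : ℝ)| ^ 3 ≤ (M * T ^ 2) ^ 3 := pow_le_pow_left₀ (abs_nonneg _) ha 3
    have h2 : (a : ℝ) ^ 3 ≤ |(a : ℝ)| ^ 3 := by
      rw [← abs_pow]; exact le_abs_self _
    have h3 := (abs_le.1 hb).1
    have h4 : (b : ℝ) ^ 2 ≤ (M * T ^ 2) ^ 3 + T ^ 6 := by linarith
    have h5 : (M * T ^ 2) ^ 3 + T ^ 6 ≤ (((M + 1) * T) ^ 3) ^ 2 := by
      have e1 : (M * T ^ 2) ^ 3 + T ^ 6 = (M ^ 3 + 1) * T ^ 6 := by ring
      have e2 : (((M + 1) * T) ^ 3) ^ 2 = (M + 1) ^ 6 * T ^ 6 := by ring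
      rw [e1, e2]
      apply mul_le_mul_of_nonneg_right _ (by positivity)
      have e3 : M ^ 3 + 1 ≤ (M + 1) ^ 3 := by nlinarith [sq_nonneg M]
      have e4 : (M + 1) ^ 3 ≤ (M + 1) ^ 6 := pow_le_pow_right₀ (by linarith) (by norm_num)
      linarith
    have h6 : (0 : ℝ) ≤ ((M + 1) * T) ^ 3 := by positivity
    exact abs_le_of_sq_le_sq (h4.trans h5) h6

/-- the slice -/
def Sl (s : Bool) (m : ℕ) (β a : ℤ) (T : ℝ) : Set ℤ :=
  {b : ℤ | b ≡ β [ZMOD m] ∧ Sg s a b ∧ |(a : ℝ) ^ 3 - (b : ℝ) ^ 2| ≤ T ^ 6}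

open Classical in
theorem count (hS : S_SLICE) (s : Bool) {M : ℝ} (hM : 1 ≤ M) {m : ℕ} {P : ℤ → ℤ → Prop}
    (hm : 0 < m) (hP : Per m P) {T : ℝ} (hT : 1 ≤ T) :
    cnt ((M + 1) * T) (fun a b => |(a : ℝ)| ≤ M * T ^ 2 ∧ Sg s a b ∧
      |(a : ℝ) ^ 3 - (b : ℝ) ^ 2| ≤ T ^ 6 ∧ P a b) =
    ∑ x ∈ (range m ×ˢ range m).filter (fun x : ℕ × ℕ => P x.1 x.2),
      ∑ a ∈ (Icc (-⌊M * T ^ 2⌋) ⌊M * T ^ 2⌋).filter (fun a : ℤ => a ≡ (x.1 : ℤ) [ZMOD m]),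
        ((Sl s m x.2 a T).ncard : ℝ) := by
  have hm' : (0 : ℤ) < m := by exact_mod_cast hm
  rw [cnt_def]
  rw [Finset.card_eq_sum_card_fiberwise
    (f := fun q : ℤ × ℤ => (((q.1 % m).toNat, (q.2 % m).toNat), q.1))
    (t := ((range m ×ˢ range m).filter (fun x : ℕ × ℕ => P x.1 x.2)) ×ˢ
      Icc (-⌊M * T ^ 2⌋) ⌊M * T ^ 2⌋)]
  · rw [Finset.sum_product]
    push_cast
    refine Finset.sum_congr rfl fun x hx => ?_
    rw [Finset.mem_filter, Finset.mem_product, Finset.mem_range, Finset.mem_range] at hx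
    obtain ⟨⟨hx1, hx2⟩, hx3⟩ := hx
    have m1 : (x.1 : ℤ) % m = x.1 := Int.emod_eq_of_lt (by positivity) (by exact_mod_cast hx1)
    have m2 : (x.2 : ℤ) % m = x.2 := Int.emod_eq_of_lt (by positivity) (by exact_mod_cast hx2)
    rw [Finset.sum_filter]
    refine Finset.sum_congr rfl fun a ha => ?_
    rw [abs_floor] at ha
    split_ifs with h
    · have hfin : (Sl s m x.2 a T).Finite := (hS s m x.2 a T hm hT).1
      rw [Set.ncard_eq_toFinset_card _ hfin,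
        ← Finset.card_image_of_injective hfin.toFinset (Prod.mk_right_injective a)]
      congr 2
      ext q
      simp only [Finset.mem_filter, Finset.mem_image, Set.Finite.mem_toFinset]
      have g2 := Int.emod_nonneg q.2 hm'.ne'
      constructor
      · rintro ⟨⟨h1, h2, h3, h4, h5⟩, h6⟩
        have h7 : q.1 = a := congrArg Prod.snd h6
        have h8 : (q.2 % m).toNat = x.2 := by
          have := congrArg (fun y : (ℕ × ℕ) × ℤ => y.1.2) h6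
          exact this
        refine ⟨q.2, ⟨?_, ?_, ?_⟩, ?_⟩
        · show q.2 % m = x.2 % m
          rw [m2]; omega
        · rw [← h7]; exact h3
        · rw [← h7]; exact h4
        · rw [← h7]
      · rintro ⟨b, ⟨h1, h2, h3⟩, rfl⟩
        refine ⟨⟨in_box hM hT ha h3, ha, h2, h3, (hP _ _ _ _ h h1).2 hx3⟩, ?_⟩
        have h5 : a % m = x.1 := by have : a % m = x.1 % m := h; rw [this, m1]
        have h6 : b % m = x.2 := by have : b % m = x.2 % m := h1; rw [this, m2]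
        simp only
        rw [h5, h6]
        simp
    · rw [Nat.cast_eq_zero, Finset.card_eq_zero, Finset.filter_eq_empty_iff]
      intro q hq h6
      apply h
      have g1 := Int.emod_nonneg q.1 hm'.ne'
      have h7 : q.1 = a := congrArg Prod.snd h6
      have h8 : (q.1 % m).toNat = x.1 := by
        have := congrArg (fun y : (ℕ × ℕ) × ℤ => y.1.1) h6
        exact this
      rw [← h7]
      show q.1 % m = x.1 % m
      rw [m1]; omega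
  · intro q hq
    rw [Finset.mem_coe, Finset.mem_filter] at hq
    rw [Finset.mem_coe, Finset.mem_product, Finset.mem_filter, Finset.mem_product,
      Finset.mem_range, Finset.mem_range]
    have g1 := Int.emod_nonneg q.1 hm'.ne'
    have g2 := Int.emod_nonneg q.2 hm'.ne'
    have l1 := Int.emod_lt_of_pos q.1 hm'
    have l2 := Int.emod_lt_of_pos q.2 hm'
    obtain ⟨-, h1, -, -, h2⟩ := hq
    refine ⟨⟨⟨by simp only; omega, by simp only; omega⟩, ?_⟩, abs_floor.2 h1⟩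
    simp only
    rw [Int.toNat_of_nonneg g1, Int.toNat_of_nonneg g2]
    exact (hP.mod _ _).1 h2

theorem card_le {Y : ℝ} (hY : 0 ≤ Y) (m : ℕ) (α : ℤ) :
    (((Icc (-⌊Y⌋) ⌊Y⌋).filter (fun a : ℤ => a ≡ α [ZMOD m])).card : ℝ) ≤ 2 * Y + 1 := by
  have h1 : ((Icc (-⌊Y⌋) ⌊Y⌋).filter (fun a : ℤ => a ≡ α [ZMOD m])).card ≤
      (Icc (-⌊Y⌋) ⌊Y⌋).card := Finset.card_filter_le _ _
  have h2 : ((Icc (-⌊Y⌋) ⌊Y⌋).card : ℤ) = 2 * ⌊Y⌋ + 1 := by
    have := Int.floor_nonneg.2 hY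
    rw [Int.card_Icc]
    omega
  have h3 : (((Icc (-⌊Y⌋) ⌊Y⌋).card : ℕ) : ℝ) = 2 * ⌊Y⌋ + 1 := by exact_mod_cast h2
  have h4 := Int.floor_le Y
  have h5 : (((Icc (-⌊Y⌋) ⌊Y⌋).filter (fun a : ℤ => a ≡ α [ZMOD m])).card : ℝ) ≤
      (((Icc (-⌊Y⌋) ⌊Y⌋).card : ℕ) : ℝ) := by exact_mod_cast h1
  linarith

/-- one residue pair -/
theorem one_pair (hS : S_SLICE) (hR : S_RIE) (s : Bool) {M : ℝ} (hM : 1 ≤ M) {m : ℕ} (hm : 0 < m)
    (α β : ℤ) :
    Tendsto (fun T : ℝ => (∑ a ∈ (Icc (-⌊M * T ^ 2⌋) ⌊M * T ^ 2⌋).filter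
      (fun a : ℤ => a ≡ α [ZMOD m]), ((Sl s m β a T).ncard : ℝ)) / T ^ 5) atTop
      (𝓝 (1 / m * (1 / m * ∫ u in (-M)..M, Ls s u))) := by
  have h1 := (hR (Ls s) (ls_cont s) m α M hm hM).const_mul (1 / (m : ℝ))
  have h2 : Tendsto (fun T : ℝ => (∑ a ∈ (Icc (-⌊M * T ^ 2⌋) ⌊M * T ^ 2⌋).filter
      (fun a : ℤ => a ≡ α [ZMOD m]), ((Sl s m β a T).ncard : ℝ)) / T ^ 5 -
      1 / (m : ℝ) * ((∑ a ∈ (Icc (-⌊M * T ^ 2⌋) ⌊M * T ^ 2⌋).filter
        (fun a : ℤ => a ≡ α [ZMOD m]), Ls s (a / T ^ 2)) / T ^ 2)) atTop (𝓝 0) := by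
    refine squeeze_zero_norm' ?_
      (tendsto_const_nhds.div_atTop tendsto_id : Tendsto (fun T : ℝ => (24 * M) / T) atTop (𝓝 0))
    filter_upwards [eventually_ge_atTop (1 : ℝ)] with T hT
    have hT0 : 0 < T := by linarith
    have hm0 : (0 : ℝ) < m := by exact_mod_cast hm
    have hM0 : 0 < M := by linarith
    obtain ⟨A, hA⟩ : ∃ A : Finset ℤ, A = (Icc (-⌊M * T ^ 2⌋) ⌊M * T ^ 2⌋).filter
      (fun a : ℤ => a ≡ α [ZMOD m]) := ⟨_, rfl⟩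
    have hAc : (A.card : ℝ) ≤ 2 * (M * T ^ 2) + 1 := by
      rw [hA]; exact card_le (by positivity) m α
    rw [← hA]
    have e1 : (∑ a ∈ A, ((Sl s m β a T).ncard : ℝ)) / T ^ 5 -
        1 / (m : ℝ) * ((∑ a ∈ A, Ls s (a / T ^ 2)) / T ^ 2) =
        (∑ a ∈ A, (((Sl s m β a T).ncard : ℝ) - T ^ 3 * Ls s (a / T ^ 2) / m)) / T ^ 5 := by
      rw [Finset.sum_sub_distrib, ← Finset.sum_div, ← Finset.mul_sum]
      field_simp
    rw [e1, norm_div, Real.norm_eq_abs, Real.norm_eq_abs, abs_of_pos (pow_pos hT0 5)]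
    have e2 : |∑ a ∈ A, (((Sl s m β a T).ncard : ℝ) - T ^ 3 * Ls s (a / T ^ 2) / m)| ≤
        A.card * 8 := by
      refine (Finset.abs_sum_le_sum_abs _ _).trans ?_
      rw [← nsmul_eq_mul]
      exact Finset.sum_le_card_nsmul _ _ _ fun a _ => (hS s m β a T hm hT).2
    rw [div_le_div_iff₀ (pow_pos hT0 5) hT0]
    have hT2 : 1 ≤ T ^ 2 := one_le_pow₀ hT
    have e3 : (A.card : ℝ) * 8 ≤ 24 * M * T ^ 2 := by nlinarith
    calc _ ≤ (24 * M * T ^ 2) * T := mul_le_mul_of_nonneg_right (e2.trans e3) hT0.le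
      _ = 24 * M * T ^ 3 := by ring
      _ ≤ 24 * M * T ^ 5 := by
        apply mul_le_mul_of_nonneg_left _ (by positivity)
        exact pow_le_pow_right₀ hT (by norm_num)
  have h3 := h2.add h1
  rw [zero_add] at h3
  refine h3.congr fun T => ?_
  ring

theorem t_REG : S_SLICE → S_RIE → S_REG := by
  classical
  intro hS hR s M hM m P hm hP
  have h1 : Tendsto (fun T : ℝ => ∑ x ∈ (range m ×ˢ range m).filter (fun x : ℕ × ℕ => P x.1 x.2),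
      (∑ a ∈ (Icc (-⌊M * T ^ 2⌋) ⌊M * T ^ 2⌋).filter (fun a : ℤ => a ≡ (x.1 : ℤ) [ZMOD m]),
        ((Sl s m x.2 a T).ncard : ℝ)) / T ^ 5) atTop
      (𝓝 (∑ x ∈ (range m ×ˢ range m).filter (fun x : ℕ × ℕ => P x.1 x.2),
        1 / (m : ℝ) * (1 / m * ∫ u in (-M)..M, Ls s u))) :=
    tendsto_finsetSum _ fun x _ => one_pair hS hR s hM hm x.1 x.2
  have e1 : ∑ x ∈ (range m ×ˢ range m).filter (fun x : ℕ × ℕ => P x.1 x.2),
      1 / (m : ℝ) * (1 / m * ∫ u in (-M)..M, Ls s u) = rc m P * ∫ u in (-M)..M, Ls s u := by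
    rw [Finset.sum_const, nsmul_eq_mul, rc_def]
    ring
  rw [e1] at h1
  refine h1.congr' ?_
  filter_upwards [eventually_ge_atTop (1 : ℝ)] with T hT
  rw [count hS s hM hm hP hT, Finset.sum_div]

end Pool.Agent.U689.LC
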